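import Mathlib

set_option autoImplicit false
open Matrix Finset Polynomial

namespace Pool.Agent.Results.MP_7b644b_an.Small

lemma tr_lt {n : ℕ} (hn : 0 < n) (M : Matrix (Fin n) (Fin n) ℂ) (h : ∀ μ ∈ spectrum ℂ M, ‖μ‖ < 1) :
    ‖(M ^ 2).trace‖ < n := by
  have : Nonempty (Fin n) := ⟨⟨0, hn⟩⟩
  have hr : ∀ z ∈ (M ^ 2).charpoly.roots, ‖z‖ < 1 := by
    intro z hz
    have h1 : z ∈ spectrum ℂ (M ^ 2) :=
      Matrix.mem_spectrum_iff_isRoot_charpoly.2 (isRoot_of_mem_roots hz)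
    rw [spectrum.map_pow_of_pos M (by norm_num : 0 < 2)] at h1
    obtain ⟨μ, hμ, rfl⟩ := h1
    have := h μ hμ
    simp only [norm_pow]
    nlinarith [norm_nonneg μ]
  have hc : (M ^ 2).charpoly.roots.card = n := by
    rw [IsAlgClosed.card_roots_eq_natDegree, charpoly_natDegree_eq_dim, Fintype.card_fin]
  rw [trace_eq_sum_roots_charpoly]
  refine (norm_multiset_sum_le _).trans_lt ?_
  have hne : (M ^ 2).charpoly.roots ≠ 0 := by
    intro h0
    rw [h0] at hc
    simp at hc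
    omega
  have := Multiset.sum_lt_sum_of_nonempty (f := fun z : ℂ => ‖z‖) (g := fun _ => (1 : ℝ)) hne hr
  simpa [hc] using this

lemma tr_ge {n : ℕ} (A : Matrix (Fin n) (Fin n) ℝ) (E : Fin n → ℝ) (hA : ∀ j k, 0 ≤ A j k) :
    ∑ j, (A j j - E j) ^ 2 ≤ ((A - diagonal E) ^ 2).trace := by
  simp only [sq, trace, Matrix.diag, mul_apply]
  refine sum_le_sum fun j _ => ?_
  refine le_trans (by simp) (single_le_sum (f := fun k => (A - diagonal E) j k * (A - diagonal E) k j)
    (fun k _ => ?_) (mem_univ j))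
  by_cases hjk : j = k
  · subst hjk
    exact mul_self_nonneg _
  · simp only [Matrix.sub_apply, diagonal_apply_ne _ hjk, diagonal_apply_ne _ (Ne.symm hjk), sub_zero]
    exact mul_nonneg (hA _ _) (hA _ _)

lemma main {n : ℕ} (hn : 0 < n) (A : Matrix (Fin n) (Fin n) ℝ) (E : Fin n → ℝ) (hA : ∀ j k, 0 ≤ A j k)
    (h : (n : ℝ) ≤ ∑ j, (A j j - E j) ^ 2) :
    ∃ μ ∈ spectrum ℂ ((A - diagonal E).map (algebraMap ℝ ℂ)), 1 ≤ ‖μ‖ := by
  by_contra hc
  push Not at hc
  have h1 := tr_lt hn _ hc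
  have h2 : (((A - diagonal E).map (algebraMap ℝ ℂ)) ^ 2).trace =
      ((((A - diagonal E) ^ 2).trace : ℝ) : ℂ) := by
    simp [sq, trace, mul_apply]
  rw [h2, Complex.norm_real, Real.norm_eq_abs] at h1
  linarith [tr_ge A E hA, le_abs_self ((A - diagonal E) ^ 2).trace]

lemma same (f : ℝ → ℝ) (hf : Continuous f) (a b : ℝ) (h : ∀ s ∈ Set.uIcc a b, f s ≠ 0) :
    0 < f a * f b := by
  by_contra hc
  have : (0 : ℝ) ∈ Set.uIcc (f a) (f b) := by
    rcases le_total (f a) (f b) with l | l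
    · rw [Set.uIcc_of_le l]
      constructor <;> by_contra q <;> push Not at q hc <;> nlinarith
    · rw [Set.uIcc_of_ge l]
      constructor <;> by_contra q <;> push Not at q hc <;> nlinarith
  obtain ⟨s, hs, h0⟩ := intermediate_value_uIcc hf.continuousOn this
  exact h s hs h0

/-- The deformation of `y - (A - E)` to its diagonal. -/
def F {n : ℕ} (A : Matrix (Fin n) (Fin n) ℝ) (E : Fin n → ℝ) (t y : ℝ) : Matrix (Fin n) (Fin n) ℝ :=
  diagonal (fun j => y - (A j j - E j)) - t • (A - diagonal fun j => A j j)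

lemma dom {n : ℕ} (A : Matrix (Fin n) (Fin n) ℝ) (E : Fin n → ℝ) (hA : ∀ j k, 0 ≤ A j k)
    (hs : ∀ j, ∑ k, A j k = 1) (y : ℝ) (h : ∀ j, 1 - A j j < |y - (A j j - E j)|) :
    0 < (∏ j, (y - (A j j - E j))) * (F A E 1 y).det := by
  have e0 : (F A E 0 y).det = ∏ j, (y - (A j j - E j)) := by simp [F]
  rw [← e0]
  refine same (fun t => (F A E t y).det) (by unfold F; fun_prop) 0 1 fun t ht => ?_
  rw [Set.uIcc_of_le zero_le_one] at ht
  refine det_ne_zero_of_sum_row_lt_diag fun k => ?_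
  have e1 : F A E t y k k = y - (A k k - E k) := by simp [F]
  have e2 : ∑ j ∈ univ.erase k, ‖F A E t y k j‖ ≤ ∑ j ∈ univ.erase k, A k j := by
    refine sum_le_sum fun j hj => ?_
    have hj' : k ≠ j := (ne_of_mem_erase hj).symm
    have : F A E t y k j = -(t * A k j) := by simp [F, diagonal_apply_ne _ hj']
    rw [this, norm_neg, Real.norm_of_nonneg (mul_nonneg ht.1 (hA _ _))]
    nlinarith [hA k j, ht.2]
  have e3 := add_sum_erase univ (A k) (mem_univ k)
  rw [e1, Real.norm_eq_abs]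
  linarith [hs k, h k]

lemma five {n : ℕ} (hn : n ≤ 5) (A : Matrix (Fin n) (Fin n) ℝ) (E : Fin n → ℝ) (hA : ∀ j k, 0 ≤ A j k)
    (hs : ∀ j, ∑ k, A j k = 1) (i : Fin n) (hi : 3 ≤ E i) :
    ∃ μ ∈ spectrum ℂ ((A - diagonal E).map (algebraMap ℝ ℂ)), 1 ≤ ‖μ‖ := by
  by_contra hc
  have h1 : ∑ j, (A j j - E j) ^ 2 < 5 := by
    by_contra h
    have : (n : ℝ) ≤ 5 := by exact_mod_cast hn
    exact hc (main i.pos A E hA (by linarith))
  push Not at hc
  have le1 : ∀ j, A j j ≤ 1 := fun j => hs j ▸ single_le_sum (fun k _ => hA j k) (mem_univ j)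
  set δ := 5 - ∑ j, (A j j - E j) ^ 2 with hδ
  have d0 : 0 < δ := by linarith
  have hi4 : 4 ≤ (A i i - E i) ^ 2 := by nlinarith [le1 i]
  have one : ∀ j, (A j j - E j) ^ 2 ≤ 5 - δ := fun j => by
    have := single_le_sum (f := fun j => (A j j - E j) ^ 2) (fun k _ => sq_nonneg _) (mem_univ j)
    linarith
  have two : ∀ j, j ≠ i → -1 + δ / 4 < A j j - E j := fun j hj => by
    have := sum_le_sum_of_subset_of_nonneg (f := fun j => (A j j - E j) ^ 2) (subset_univ {j, i})
      fun k _ _ => sq_nonneg _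
    rw [sum_pair hj] at this
    nlinarith [one i]
  have d1 : δ ≤ 1 := by linarith [one i]
  have low : ∀ j, -3 < A j j - E j := fun j => by nlinarith [one j]
  have p1 := dom A E hA hs (-5) fun j => by
    rw [abs_of_neg (by linarith [low j])]
    linarith [low j, hA j j]
  have p2 := dom A E hA hs (-2 + δ / 4) fun j => by
    by_cases hj : j = i
    · subst hj
      exact lt_of_lt_of_le (by linarith) (le_abs_self _)
    · exact lt_of_lt_of_le (by linarith [two j hj, hA j j]) (neg_le_abs _)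
  have p3 := same (fun y => (F A E 1 y).det) (by unfold F; fun_prop) (-5) (-2 + δ / 4) fun y hy h0 => by
    rw [Set.uIcc_of_le (by linarith)] at hy
    have hm : (y : ℂ) ∈ spectrum ℂ ((A - diagonal E).map (algebraMap ℝ ℂ)) := by
      rw [spectrum.mem_iff, isUnit_iff_isUnit_det, isUnit_iff_ne_zero, not_not]
      have : algebraMap ℂ (Matrix (Fin n) (Fin n) ℂ) y - (A - diagonal E).map (algebraMap ℝ ℂ) =
          (algebraMap ℝ ℂ).mapMatrix (F A E 1 y) := by
        ext j k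
        by_cases hjk : j = k
        · subst hjk
          simp [F, algebraMap_matrix_apply]
        · simp [F, algebraMap_matrix_apply, hjk]
      rw [this, ← RingHom.map_det]
      rw [h0, map_zero]
    have := hc _ hm
    rw [Complex.norm_real, Real.norm_eq_abs] at this
    linarith [neg_le_abs y, hy.2]
  have p4 : (∏ j, (-5 - (A j j - E j))) * ∏ j, (-2 + δ / 4 - (A j j - E j)) < 0 := by
    rw [← prod_mul_distrib, ← mul_prod_erase univ _ (mem_univ i)]
    refine mul_neg_of_neg_of_pos (mul_neg_of_neg_of_pos (by linarith [low i]) (by linarith [le1 i]))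
      (prod_pos fun j hj => mul_pos_of_neg_of_neg (by linarith [low j]) ?_)
    linarith [two j (ne_of_mem_erase hj)]
  nlinarith [mul_pos p1 p2, mul_neg_of_neg_of_pos p4 p3]

theorem result (n : ℕ) (A : Matrix (Fin n) (Fin n) ℝ) (E : Fin n → ℝ) (hA : ∀ j k, 0 ≤ A j k)
    (hs : ∀ j, ∑ k, A j k = 1) (i : Fin n) (hi : (n ≤ 5 ∧ 3 ≤ E i) ∨ A i i + √n ≤ E i) :
    ∃ μ ∈ spectrum ℂ ((A - diagonal E).map (algebraMap ℝ ℂ)), 1 ≤ ‖μ‖ := by
  rcases hi with hi | hi
  · exact five hi.1 A E hA hs i hi.2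
  · refine main i.pos A E hA (le_trans ?_ (single_le_sum (f := fun j => (A j j - E j) ^ 2)
      (fun k _ => sq_nonneg _) (mem_univ i)))
    nlinarith [Real.sq_sqrt (Nat.cast_nonneg (α := ℝ) n), Real.sqrt_nonneg (n : ℝ)]

end Pool.Agent.Results.MP_7b644b_an.Small
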